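import Pool.Agent.helper25.TW.Spec

/-! Row REB of the project TWO. -/

set_option autoImplicit false

namespace TP.TW

open DP MeasureTheory Finset

theorem REB_adj {a b : V} (h : Adj a b) : (I a - I b).natAbs ≤ 1 ∧ (a.2 - b.2).natAbs ≤ 1 := by
  obtain ⟨h1, -⟩ := h
  unfold sd at h1
  have h3 : (a.1 - b.1).natAbs ≤ 1 := le_trans (le_max_left _ _) h1.le
  have h4 : (a.2 - b.2).natAbs ≤ 1 := le_trans (le_max_right _ _) h1.le
  refine ⟨?_, h4⟩
  unfold I
  omega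

theorem REB_dI (x : V) {a b : V} (h : Adj a b) : dI x b ≤ dI x a + 1 := by
  obtain ⟨h1, h2⟩ := REB_adj h
  unfold dI
  omega

theorem REB_ivt {W : Set V} {v : V} (c : ℤ) (hv : c ≤ I v) {u : V}
    (h : Relation.ReflTransGen (fun a b => Adj a b ∧ b ∈ W) u v) :
    u ∈ W → I u ≤ c → ∃ w, I w = c ∧ Con W u w ∧ Con W w v := by
  induction h using Relation.ReflTransGen.head_induction_on with
  | refl =>
    intro hW hu
    exact ⟨v, le_antisymm hu hv, ⟨hW, .refl⟩, ⟨hW, .refl⟩⟩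
  | head hxy hyv ih =>
    rename_i x y
    intro hW hu
    by_cases hx : I x = c
    · exact ⟨x, hx, ⟨hW, .refl⟩, ⟨hW, .head hxy hyv⟩⟩
    · obtain ⟨hI, -⟩ := REB_adj hxy.1
      obtain ⟨w, h1, h2, h3⟩ := ih hxy.2 (by omega)
      exact ⟨w, h1, ⟨hW, .head hxy h2.2⟩, h3⟩

theorem REB_exit {W : Set V} {w e : V} (ρ : ℕ) (g : V → ℕ) (hg : ∀ a b, Adj a b → g b ≤ g a + 1)
    (hw : w ∈ W) (hw0 : 8 * g w < ρ) (h : Relation.ReflTransGen (fun a b => Adj a b ∧ b ∈ W) w e) :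
    (8 * g e < ρ ∧ Con {y | y ∈ W ∧ 8 * g y < ρ} w e) ∨
      ∃ z, Con {y | y ∈ W ∧ 8 * g y < ρ} w z ∧ ρ ≤ 8 * (g z + 1) := by
  induction h with
  | refl => exact Or.inl ⟨hw0, ⟨⟨hw, hw0⟩, .refl⟩⟩
  | tail hxy hyz ih =>
    rename_i y z
    rcases ih with ⟨h1, h2⟩ | h
    · by_cases hz : 8 * g z < ρ
      · exact Or.inl ⟨hz, h2.tail hyz.1 ⟨hyz.2, hz⟩⟩
      · refine Or.inr ⟨y, h2, ?_⟩
        have := hg y z hyz.1
        omega
    · exact Or.inr h

theorem REB_Ibr (y : V) : I (br y) = I y := by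
  unfold I br
  split_ifs with h
  · rfl
  · show (y.1 - 1 - y.2) / 2 = (y.1 - y.2) / 2
    omega

theorem REB : REB_stmt := by
  rintro β m S v₀ hm hv0 hbr hS hbad ⟨u, v, hu, hv, hconn⟩
  obtain ⟨hv1, hv2, hv3, hv4⟩ := hv0
  have huW := Con.mem_left hconn
  have hvW := Con.mem_right hconn
  obtain ⟨⟨hu1, hu2, hu3, hu4⟩, -⟩ := huW
  obtain ⟨⟨hw1, hw2, hw3, hw4⟩, -⟩ := hvW
  have hIu : I u = 0 := by unfold I; omega
  have hIv : I v = m := by unfold I; omega
  have hI0 : 0 ≤ I v₀ ∧ I v₀ ≤ m := by unfold I; omega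
  obtain ⟨w, hw, huw, hwv⟩ := REB_ivt (I v₀) (by omega) hconn.2 hconn.1 (by omega)
  have hwW := Con.mem_left hwv
  obtain ⟨⟨hq1, hq2, hq3, hq4⟩, hwc⟩ := hwW
  have hpar : (v₀.1 + v₀.2) % 2 = 0 := by rw [← hbr]; exact br_even v₀
  have hne : w.2 ≠ v₀.2 := by
    intro h
    have h1 : br w = v₀ := by
      have e1 := br_even w
      have e2 := br_snd w
      have e3 := REB_Ibr w
      rw [hw] at e3
      unfold I at e3
      refine Prod.ext ?_ (by rw [e2, h])
      rw [e2] at e1 e3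
      rw [← h] at e3 hpar
      omega
    have h2 : col (fil β S v₀ false) w = false := by
      show fil β S v₀ false (br w) = false
      rw [h1]
      unfold fil
      rw [if_neg hS, if_pos rfl]
    rw [h2] at hwc
    exact absurd hwc (by decide)
  have hρ : dI v₀ w = (w.2 - v₀.2).natAbs := by
    unfold dI
    rw [hw]
    omega
  have hρ1 : 1 ≤ dI v₀ w := by omega
  have hend : ∃ e, Con {w | w ∈ rh m ∧ col (fil β S v₀ false) w = true} w e ∧
      dI v₀ w ≤ 2 * (I w - I e).natAbs := by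
    by_cases h : m ≤ 2 * I w
    · exact ⟨u, huw.symm, by omega⟩
    · exact ⟨v, hwv, by omega⟩
  obtain ⟨e, hwe, he⟩ := hend
  have hd0 : dI w w = 0 := by
    unfold dI
    omega
  have hde : (I w - I e).natAbs ≤ dI w e := le_max_left _ _
  rcases REB_exit (dI v₀ w) (dI w) (fun a b h => REB_dI w h) hwe.1 (by omega) hwe.2 with h | h
  · omega
  obtain ⟨z, hz1, hz2⟩ := h
  refine hbad ⟨true, w, z, Or.inl hw, hρ1, hz2, Con.mono ?_ hz1⟩
  rintro y ⟨⟨hy1, hy2⟩, hy3⟩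
  have hy4 : fil β S v₀ false (br y) = true := hy2
  by_cases hb : br y ∈ S
  · refine ⟨hb, ?_⟩
    show β (br y) = true
    unfold fil at hy4
    rwa [if_pos hb] at hy4
  · exfalso
    unfold fil at hy4
    rw [if_neg hb] at hy4
    by_cases hb2 : br y = v₀
    · rw [if_pos hb2] at hy4
      exact absurd hy4 (by decide)
    · rw [if_neg hb2, decide_eq_true_eq, br_snd, REB_Ibr, ← hw] at hy4
      have h1 : (I w - I y).natAbs ≤ dI w y := le_max_left _ _
      have h2 : (w.2 - y.2).natAbs ≤ dI w y := le_max_right _ _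
      omega

end TP.TW
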